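import Pool.Agent.X203.FBLpSpace

/-! A projective Banach lattice without topological order unit which is not free: the free Banach
lattice over an uncountable set of *positive* generators. -/

open Filter Topology Pool.Agent.X203.FBLp

namespace Pool.Agent.Results.MP_be51b2_an.PositiveGenerators

universe v u w

variable {A : Type} {X : Type v} [NormedAddCommGroup X] [Lattice X] [NormedSpace ℝ X]
  [BanachLattice X] {u : A → X}

/-- the closure of the set of generated pairs -/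
def Gp (u : A → X) : Set (P A × X) := closure {q | Gen u q.1.1 q.2}

lemma Gp_add {a b} (ha : a ∈ Gp u) (hb : b ∈ Gp u) : a + b ∈ Gp u :=
  map_mem_closure₂ continuous_add ha hb fun _ h1 _ h2 => Gen.add h1 h2

lemma Gp_smul (r : ℝ) {a} (ha : a ∈ Gp u) : r • a ∈ Gp u :=
  map_mem_closure (continuous_const_smul r) ha fun _ h1 => Gen.smul r h1

lemma Gp_sup {a b} (ha : a ∈ Gp u) (hb : b ∈ Gp u) :
    (a.1 ⊔ b.1, a.2 ⊔ b.2) ∈ Gp u := by
  have hc : Continuous (Function.uncurry fun a b : P A × X => (a.1 ⊔ b.1, a.2 ⊔ b.2)) :=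
    ((continuous_fst.comp continuous_fst).sup (continuous_fst.comp continuous_snd)).prodMk
      ((continuous_snd.comp continuous_fst).sup (continuous_snd.comp continuous_snd))
  exact map_mem_closure₂ (f := fun a b : P A × X => (a.1 ⊔ b.1, a.2 ⊔ b.2)) hc ha hb
    fun _ h1 _ h2 => Gen.sup h1 h2

lemma Gp_bound (hu : ∀ γ, 0 ≤ u γ) {C : ℝ} (hC : ∀ γ, ‖u γ‖ ≤ C) (hC0 : 0 ≤ C) {a}
    (ha : a ∈ Gp u) : ‖a.2‖ ≤ C * ‖a.1‖ := by
  have hcl : IsClosed {a : P A × X | ‖a.2‖ ≤ C * ‖a.1‖} := isClosed_le (by fun_prop) (by fun_prop)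
  refine closure_minimal (fun q hq => ?_) hcl ha
  show ‖q.2‖ ≤ C * ‖q.1‖
  refine le_of_forall_pos_le_add fun ε hε => ?_
  obtain ⟨c, hc, h1⟩ := exists_of_lt (x := q.1) (r := nrm q.1 + ε / (C + 1)) (by
    have : 0 < ε / (C + 1) := by positivity
    linarith)
  refine (Gen.bound hu hC hC0 hq hc).trans ?_
  rw [norm_def]
  calc C * ‖c‖ ≤ C * (nrm q.1 + ε / (C + 1)) := by gcongr
    _ = C * nrm q.1 + C * (ε / (C + 1)) := by ring
    _ ≤ C * nrm q.1 + ε := by
        gcongr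
        rw [← mul_div_assoc, div_le_iff₀ (by positivity)]
        nlinarith

lemma Gp_unique (hu : ∀ γ, 0 ≤ u γ) {C : ℝ} (hC : ∀ γ, ‖u γ‖ ≤ C) (hC0 : 0 ≤ C) {f x y}
    (h : (f, x) ∈ Gp u) (h' : (f, y) ∈ Gp u) : x = y := by
  have h1 : ‖x - y‖ ≤ C * ‖f - f‖ := by
    have := Gp_bound hu hC hC0 (Gp_add h (Gp_smul (-1) h'))
    simpa [sub_eq_add_neg] using this
  rw [sub_self, norm_zero, mul_zero] at h1
  exact sub_eq_zero.1 (norm_le_zero_iff.1 h1)

lemma genF_mem {g : K A → ℝ} (h : GenF g) : g ∈ sub A := fun ε hε =>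
  ⟨g, 0, h, by rw [sub_self]; exact Dom.zero, by rwa [norm_zero]⟩

lemma dense_gen (f : P A) (ε : ℝ) (hε : 0 < ε) : ∃ g : P A, GenF g.1 ∧ ‖f - g‖ < ε := by
  obtain ⟨g, c, h1, h2, h3⟩ := f.2 ε hε
  exact ⟨⟨g, genF_mem h1⟩, h1, (nrm_le h2).trans_lt h3⟩

lemma Gp_exists (hu : ∀ γ, 0 ≤ u γ) {C : ℝ} (hC : ∀ γ, ‖u γ‖ ≤ C) (hC0 : 0 ≤ C) (f : P A) :
    ∃ x, (f, x) ∈ Gp u := by
  choose g hg hlim using fun n : ℕ => dense_gen f ((1 / 2 : ℝ) ^ n) (by positivity)
  choose y hy using fun n => (hg n).exists_of (u' := u)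
  have hgl : Tendsto g atTop (𝓝 f) := by
    rw [tendsto_iff_norm_sub_tendsto_zero]
    refine squeeze_zero (fun _ => norm_nonneg _) (fun n => ?_)
      (tendsto_pow_atTop_nhds_zero_of_lt_one (r := (1 / 2 : ℝ)) (by norm_num) (by norm_num))
    rw [← norm_neg, neg_sub]
    exact (hlim n).le
  have hyc : CauchySeq y := by
    rw [Metric.cauchySeq_iff']
    intro δ hδ
    obtain ⟨N, hN⟩ := Metric.cauchySeq_iff'.1 hgl.cauchySeq (δ / (C + 1)) (by positivity)
    refine ⟨N, fun n hn => ?_⟩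
    have h1 := hN n hn
    rw [dist_eq_norm] at h1 ⊢
    have h3 : (g n + (-1 : ℝ) • g N, y n + (-1 : ℝ) • y N) ∈ Gp u :=
      subset_closure ((hy n).add ((hy N).smul (-1)))
    have h2 := Gp_bound hu hC hC0 h3
    simp only [neg_one_smul, ← sub_eq_add_neg] at h2
    calc ‖y n - y N‖ ≤ C * ‖g n - g N‖ := h2
      _ ≤ (C + 1) * ‖g n - g N‖ := by gcongr; linarith
      _ < (C + 1) * (δ / (C + 1)) := by gcongr
      _ = δ := by field_simp
  obtain ⟨x, hx⟩ := cauchySeq_tendsto_of_complete hyc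
  exact ⟨x, mem_closure_of_tendsto (hgl.prodMk_nhds hx) (Eventually.of_forall hy)⟩

theorem exists_hom (hu : ∀ γ, 0 ≤ u γ) {C : ℝ} (hC : ∀ γ, ‖u γ‖ ≤ C) (hC0 : 0 ≤ C) :
    ∃ S : P A →L[ℝ] X, IsLatticeHom S ∧ (∀ f, (f, S f) ∈ Gp u) ∧ ‖S‖ ≤ C := by
  choose S hS using Gp_exists (A := A) hu hC hC0
  have hadd : ∀ f g, S (f + g) = S f + S g := fun f g =>
    Gp_unique hu hC hC0 (hS _) (Gp_add (hS f) (hS g))
  have hsmul : ∀ (r : ℝ) f, S (r • f) = r • S f := fun r f =>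
    Gp_unique hu hC hC0 (hS _) (Gp_smul r (hS f))
  have hsup : ∀ f g, S (f ⊔ g) = S f ⊔ S g := fun f g =>
    Gp_unique hu hC hC0 (hS _) (Gp_sup (hS f) (hS g))
  let L : P A →L[ℝ] X := LinearMap.mkContinuous
    { toFun := S, map_add' := hadd, map_smul' := hsmul } C (fun f => Gp_bound hu hC hC0 (hS f))
  have hneg : ∀ f, S (-f) = - S f := fun f => by
    have := hsmul (-1) f
    rwa [neg_one_smul, neg_one_smul] at this
  refine ⟨L, ⟨hsup, fun f g => ?_⟩, hS, LinearMap.mkContinuous_norm_le _ hC0 _⟩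
  change S (f ⊓ g) = S f ⊓ S g
  have e1 : f ⊓ g = -(-f ⊔ -g) := by rw [neg_sup, neg_neg, neg_neg]
  rw [e1, hneg, hsup, hneg, hneg, neg_sup, neg_neg, neg_neg]

/-- compatibility on generated pairs -/
lemma gen_compat {Y : Type*} [NormedAddCommGroup Y] [Lattice Y] [NormedSpace ℝ Y]
    {Q : X →L[ℝ] Y} (hQ : IsLatticeHom Q) {T : P A →L[ℝ] Y} (hT : IsLatticeHom T)
    (h : ∀ a, Q (u a) = T (dl a)) {f : K A → ℝ} {x : X} (hg : Gen u f x) (hf : f ∈ sub A) :
    Q x = T ⟨f, hf⟩ := by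
  induction hg with
  | zero => rw [map_zero]; exact (map_zero T).symm
  | pi a => exact h a
  | add h1 h2 ih1 ih2 =>
    rw [map_add, ih1 (genF_mem h1.genF), ih2 (genF_mem h2.genF), ← map_add]
    rfl
  | smul r h1 ih =>
    rw [map_smul, ih (genF_mem h1.genF), ← map_smul]
    rfl
  | sup h1 h2 ih1 ih2 =>
    rw [hQ.sup, ih1 (genF_mem h1.genF), ih2 (genF_mem h2.genF), ← hT.sup]
    rfl

lemma closure_compat {Y : Type*} [NormedAddCommGroup Y] [Lattice Y] [NormedSpace ℝ Y]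
    {Q : X →L[ℝ] Y} (hQ : IsLatticeHom Q) {T : P A →L[ℝ] Y} (hT : IsLatticeHom T)
    (h : ∀ a, Q (u a) = T (dl a)) {f : P A} {x : X} (hg : (f, x) ∈ Gp u) : Q x = T f := by
  have hcl : IsClosed {a : P A × X | Q a.2 = T a.1} := isClosed_eq (by fun_prop) (by fun_prop)
  refine closure_minimal (fun q hq => ?_) hcl hg
  exact gen_compat hQ hT h hq q.1.2

/-- lattice homomorphisms are determined by their values on the generators -/
lemma hom_ext {T T' : P A →L[ℝ] X} (hT : IsLatticeHom T) (hT' : IsLatticeHom T')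
    (h : ∀ a, T (dl a) = T' (dl a)) : T = T' := by
  have hid : IsLatticeHom (ContinuousLinearMap.id ℝ X) := ⟨fun _ _ => rfl, fun _ _ => rfl⟩
  have h1 : ∀ g : P A, GenF g.1 → T g = T' g := by
    intro g hg
    obtain ⟨y, hy⟩ := hg.exists_of (u' := fun a => T (dl a))
    have h2 := gen_compat hid hT (fun a => rfl) hy g.2
    have h3 := gen_compat hid hT' (fun a => h a) hy g.2
    exact h2.symm.trans h3
  ext f
  have h2 : f ∈ closure {g : P A | GenF g.1} := by
    rw [Metric.mem_closure_iff]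
    intro ε hε
    obtain ⟨g, hg, hlt⟩ := dense_gen f ε hε
    exact ⟨g, hg, by rwa [dist_eq_norm]⟩
  have hcl : IsClosed {g : P A | T g = T' g} := isClosed_eq (by fun_prop) (by fun_prop)
  exact closure_minimal (fun g hg => h1 g hg) hcl h2

lemma dl_nonneg (a : A) : 0 ≤ dl a := fun k => (k a).2.1

lemma hom_nonneg {Z Y : Type*} [NormedAddCommGroup Z] [Lattice Z] [NormedSpace ℝ Z]
    [NormedAddCommGroup Y] [Lattice Y] [NormedSpace ℝ Y] {T : Z →L[ℝ] Y} (hT : IsLatticeHom T)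
    {f : Z} (hf : 0 ≤ f) : 0 ≤ T f := by
  have := hT.sup f 0
  rw [sup_eq_left.2 hf, map_zero] at this
  rw [this]
  exact le_sup_right

lemma hom_abs {Z Y : Type*} [NormedAddCommGroup Z] [Lattice Z] [NormedSpace ℝ Z]
    [NormedAddCommGroup Y] [Lattice Y] [NormedSpace ℝ Y] {T : Z →L[ℝ] Y} (hT : IsLatticeHom T)
    (f : Z) : T |f| = |T f| := by
  change T (f ⊔ -f) = T f ⊔ -T f
  rw [hT.sup, map_neg]

theorem projective (A : Type) : Projective.{v} (P A) := by
  intro X Y _ _ _ _ _ _ _ _ Q hQ T hT ε hε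
  have hl : ∀ a : A, ∃ z, Q z = T (dl a) ∧ ‖z‖ ≤ (1 + ε) * ‖T‖ := by
    intro a
    have hT1 : ‖T (dl a)‖ ≤ ‖T‖ := by
      have h1 := T.le_opNorm (dl a)
      have h2 := mul_le_mul_of_nonneg_left (norm_dl_le a) (norm_nonneg T)
      linarith
    rcases eq_or_lt_of_le (norm_nonneg (T (dl a))) with h | h
    · refine ⟨0, ?_, ?_⟩
      · rw [map_zero]
        exact (norm_eq_zero.1 h.symm).symm
      · rw [norm_zero]; positivity
    · obtain ⟨x, hx1, hx2⟩ := hQ.lift (T (dl a)) ((1 + ε) * ‖T (dl a)‖) (by nlinarith)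
      refine ⟨x, hx1, hx2.le.trans ?_⟩
      gcongr
  choose z hz hzn using hl
  have hQu : ∀ a, Q |z a| = T (dl a) := by
    intro a
    rw [hom_abs hQ.hom, hz, abs_of_nonneg (hom_nonneg hT (dl_nonneg a))]
  obtain ⟨S, hS1, hS2, hS3⟩ := exists_hom (A := A) (u := fun a => |z a|)
    (fun a => abs_nonneg _) (C := (1 + ε) * ‖T‖) (fun a => by rw [norm_abs_eq_norm]; exact hzn a)
    (by positivity)
  exact ⟨S, hS1, fun f => closure_compat hQ.hom hT hQu (hS2 f), hS3⟩

/-! ### No topological order unit -/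

open Classical in
/-- the unit vector -/
noncomputable def pt (b : A) : K A := fun a => if a = b then 1 else 0

theorem no_unit [Uncountable A] : ¬ ∃ e : P A, IsTopologicalOrderUnit e := by
  classical
  rintro ⟨e, -, he⟩
  obtain ⟨c, hc⟩ := P_dom e
  have h1 : (Function.support fun a => |c a|).Countable := (summable_abs c).countable_support
  obtain ⟨b, hb⟩ : ∃ b, b ∉ Function.support fun a => |c a| := by
    by_contra hcon
    push Not at hcon
    have h2 : (Set.univ : Set A).Countable := h1.mono fun a _ => hcon a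
    exact Set.not_countable_univ h2
  have hcb : c b = 0 := by simpa using hb
  have h2 : evl (pt b) e = 0 := by
    have h3 := hc.2 (pt b)
    rw [ev_apply, tsum_eq_single b, hcb, zero_mul] at h3
    · exact abs_nonpos_iff.1 h3
    · intro a ha
      simp [pt, ha]
  have h3 := he (LinearMap.ker (evl (pt b)).toLinearMap) (fun x y hxy hx => by
    have h4 : |y.1 (pt b)| ≤ |x.1 (pt b)| := hxy (pt b)
    have h5 : x.1 (pt b) = 0 := hx
    rw [h5, abs_zero] at h4
    exact abs_nonpos_iff.1 h4) (evl (pt b)).isClosed_ker h2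
  have h4 : dl b ∈ LinearMap.ker (evl (pt b)).toLinearMap := by rw [h3]; trivial
  have h5 : (dl b).1 (pt b) = 0 := h4
  rw [dl_ap] at h5
  simp [pt] at h5

/-! ### It is not free -/

instance : BanachLattice ℝ where
  ordered := inferInstance
  smul := inferInstance
  solid := inferInstance
  complete := inferInstance

/-- real lattice homomorphisms of norm at most one are evaluations -/
lemma exists_evl {h : P A →L[ℝ] ℝ} (hh : IsLatticeHom h) (hn : ‖h‖ ≤ 1) :
    ∃ y : K A, h = evl y := by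
  have h1 : ∀ a, h (dl a) ≤ 1 := by
    intro a
    have h2 := h.le_opNorm (dl a)
    have h3 := norm_dl_le a
    have h4 : ‖h‖ * ‖dl a‖ ≤ 1 * 1 := by gcongr
    have h5 := le_abs_self (h (dl a))
    rw [Real.norm_eq_abs] at h2
    linarith
  refine ⟨fun a => ⟨h (dl a), hom_nonneg hh (dl_nonneg a), h1 a⟩, ?_⟩
  apply hom_ext hh (evl_hom _)
  intro a
  rfl

section

variable {B : Type w} {F : Type u} [NormedAddCommGroup F] [Lattice F] [NormedSpace ℝ F]
  {δ : B → F}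

open Classical in
lemma compare [Nontrivial A] (hF : IsFBL.{0} δ) (Φ : P A ≃ₗᵢ[ℝ] F)
    (hΦ : ∀ x y, Φ (x ⊔ y) = Φ x ⊔ Φ y) (hΦ' : ∀ x y, Φ (x ⊓ y) = Φ x ⊓ Φ y) (b : B) {σ σ' : ℝ}
    (hσ : |σ| = 1) (hσ' : |σ'| = 1) {T T' : F →L[ℝ] ℝ} (hT : IsLatticeHom T)
    (hT' : IsLatticeHom T') (h1 : ∀ c, T (δ c) = if c = b then σ else 0)
    (h1' : ∀ c, T' (δ c) = if c = b then σ' else 0) {y y' : K A}
    (hy : ∀ x, T (Φ x) = evl y x) (hy' : ∀ x, T' (Φ x) = evl y' x) (a : A) :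
    (y a : ℝ) ≤ y' a := by
  have hsymm_sup : ∀ x y, Φ.symm (x ⊔ y) = Φ.symm x ⊔ Φ.symm y := by
    intro x y
    apply Φ.injective
    rw [hΦ, Φ.apply_symm_apply, Φ.apply_symm_apply, Φ.apply_symm_apply]
  have hsymm_inf : ∀ x y, Φ.symm (x ⊓ y) = Φ.symm x ⊓ Φ.symm y := by
    intro x y
    apply Φ.injective
    rw [hΦ', Φ.apply_symm_apply, Φ.apply_symm_apply, Φ.apply_symm_apply]
  let s : K A := fun a => ⟨1 - y' a, by linarith [(y' a).2.2], by linarith [(y' a).2.1]⟩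
  let V : F →L[ℝ] ℝ := (evl s).comp (Φ.symm.toContinuousLinearEquiv : F →L[ℝ] P A)
  have hVap : ∀ z, V z = evl s (Φ.symm z) := fun z => rfl
  have hV : IsLatticeHom V := ⟨fun x y => by
    rw [hVap, hsymm_sup]; rfl, fun x y => by rw [hVap, hsymm_inf]; rfl⟩
  have hVn : ‖V‖ ≤ 1 := by
    refine ContinuousLinearMap.opNorm_le_bound _ zero_le_one fun z => ?_
    rw [hVap, one_mul]
    have h2 : ‖evl s‖ ≤ 1 := LinearMap.mkContinuous_norm_le _ zero_le_one _
    have := (evl s).le_of_opNorm_le h2 (Φ.symm z)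
    rwa [one_mul, Φ.symm.norm_map] at this
  -- `V` vanishes at `δ b`
  have hVb : V (δ b) = 0 := by
    have h2 : ‖evl y' + evl s‖ ≤ 1 := evl_add_evl _ _ fun a => by simp [s]
    have h3 := (evl y' + evl s).le_opNorm (Φ.symm |δ b|)
    rw [_root_.add_apply, ← hy', Φ.apply_symm_apply, ← hVap, hom_abs hT', hom_abs hV, h1',
      if_pos rfl, hσ', Φ.symm.norm_map, Real.norm_eq_abs] at h3
    have h4 : ‖(|δ b|)‖ = 1 := by
      rw [← Φ.symm.norm_map]
      have h5 : Φ.symm |δ b| = |Φ.symm (δ b)| := by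
        change Φ.symm (δ b ⊔ -δ b) = Φ.symm (δ b) ⊔ -Φ.symm (δ b)
        rw [hsymm_sup, map_neg]
      rw [h5, norm_abs_eq_norm, Φ.symm.norm_map, hF.norm_one]
    rw [h4, mul_one] at h3
    have h5 := le_abs_self (1 + |V (δ b)|)
    have h6 : |V (δ b)| ≤ 0 := by linarith
    exact abs_nonpos_iff.1 h6
  -- the map to `P A`
  obtain ⟨a1, a2, ha⟩ := exists_pair_ne A
  let f : B → P A := fun c => if c = b then σ • dl a1 else V (δ c) • dl a2
  have hfn : ∀ c, ‖f c‖ ≤ 1 := by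
    intro c
    simp only [f]
    split_ifs
    · rw [norm_smul, Real.norm_eq_abs, hσ, one_mul]
      exact norm_dl_le a1
    · rw [norm_smul]
      have h2 := V.le_opNorm (δ c)
      rw [hF.norm_one, mul_one] at h2
      have h3 : ‖V (δ c)‖ ≤ 1 := h2.trans hVn
      calc ‖V (δ c)‖ * ‖dl a2‖ ≤ 1 * 1 := by
            gcongr
            exact norm_dl_le a2
        _ = 1 := one_mul 1
  have hfb : BddAbove (Set.range fun c => ‖f c‖) := ⟨1, by rintro _ ⟨c, rfl⟩; exact hfn c⟩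
  obtain ⟨R, hR, hRδ, hRn, -⟩ := hF.universal (P A) f hfb
  have hRn' : ‖R‖ ≤ 1 := by
    rw [hRn]
    have : Nonempty B := ⟨b⟩
    exact ciSup_le hfn
  have huniq : ∀ (U U' : F →L[ℝ] ℝ), IsLatticeHom U → IsLatticeHom U' →
      (∀ c, U (δ c) = U' (δ c)) → U = U' := by
    intro U U' hU hU' h
    have hb : BddAbove (Set.range fun c => ‖U (δ c)‖) := by
      refine ⟨‖U‖, ?_⟩
      rintro _ ⟨c, rfl⟩
      have := U.le_opNorm (δ c)
      rwa [hF.norm_one, mul_one] at this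
    obtain ⟨W, -, -, -, h4⟩ := hF.universal ℝ (fun c => U (δ c)) hb
    rw [h4 U hU fun c => rfl, h4 U' hU' fun c => (h c).symm]
  have hp1 : (pt a1 a1 : ℝ) = 1 := by simp [pt]
  have hp2 : (pt a1 a2 : ℝ) = 0 := by simp [pt, ha.symm]
  have hp3 : (pt a2 a1 : ℝ) = 0 := by simp [pt, ha]
  have hp4 : (pt a2 a2 : ℝ) = 1 := by simp [pt]
  have hT2 : (evl (pt a1)).comp R = T := by
    apply huniq
    · exact ⟨fun x y => by
        show evl _ (R (x ⊔ y)) = _
        rw [hR.sup]; rfl, fun x y => by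
        show evl _ (R (x ⊓ y)) = _
        rw [hR.inf]; rfl⟩
    · exact hT
    · intro c
      show evl (pt a1) (R (δ c)) = _
      rw [hRδ, h1]
      simp only [f]
      split_ifs
      · rw [map_smul, evl_apply, dl_ap, hp1, smul_eq_mul, mul_one]
      · rw [map_smul, evl_apply, dl_ap, hp2, smul_eq_mul, mul_zero]
  have hV2 : (evl (pt a2)).comp R = V := by
    apply huniq
    · exact ⟨fun x y => by
        show evl _ (R (x ⊔ y)) = _
        rw [hR.sup]; rfl, fun x y => by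
        show evl _ (R (x ⊓ y)) = _
        rw [hR.inf]; rfl⟩
    · exact hV
    · intro c
      show evl (pt a2) (R (δ c)) = _
      rw [hRδ]
      simp only [f]
      split_ifs with h
      · rw [map_smul, evl_apply, dl_ap, hp3, smul_eq_mul, mul_zero, h, hVb]
      · rw [map_smul, evl_apply, dl_ap, hp4, smul_eq_mul, mul_one]
  have hTV : ‖evl y + evl s‖ ≤ 1 := by
    refine ContinuousLinearMap.opNorm_le_bound _ zero_le_one fun x => ?_
    have h2 : (evl y + evl s) x = (evl (pt a1) + evl (pt a2)) (R (Φ x)) := by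
      rw [_root_.add_apply, _root_.add_apply, ← hy]
      have h3 : evl (pt a1) (R (Φ x)) = T (Φ x) := by rw [← hT2]; rfl
      have h4 : evl (pt a2) (R (Φ x)) = V (Φ x) := by rw [← hV2]; rfl
      rw [h3, h4, hVap, Φ.symm_apply_apply]
    rw [h2, one_mul]
    have h3 : ‖evl (pt a1) + evl (pt a2)‖ ≤ 1 := by
      apply evl_add_evl
      intro a
      by_cases h4 : a = a1
      · rw [h4, hp1, hp3]; norm_num
      · have : (pt a1 a : ℝ) = 0 := by simp [pt, h4]
        rw [this, zero_add]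
        exact (pt a2 a).2.2
    have h4 := (evl (pt a1) + evl (pt a2)).le_of_opNorm_le h3 (R (Φ x))
    have h5 := R.le_of_opNorm_le hRn' (Φ x)
    rw [Φ.norm_map] at h5
    linarith
  have h2 := le_one_of_evl _ _ hTV a
  have h3 : (s a : ℝ) = 1 - y' a := rfl
  linarith

open Classical in
theorem not_free [Nontrivial A] [Nonempty B] (hF : IsFBL.{0} δ) (Φ : P A ≃ₗᵢ[ℝ] F)
    (hΦ : ∀ x y, Φ (x ⊔ y) = Φ x ⊔ Φ y) (hΦ' : ∀ x y, Φ (x ⊓ y) = Φ x ⊓ Φ y) : False := by
  obtain ⟨b⟩ := ‹Nonempty B›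
  have key : ∀ σ : ℝ, |σ| = 1 → ∃ (T : F →L[ℝ] ℝ) (y : K A), IsLatticeHom T ∧
      (∀ c, T (δ c) = if c = b then σ else 0) ∧ ∀ x, T (Φ x) = evl y x := by
    intro σ hσ
    have hn : ∀ c, ‖(if c = b then σ else 0 : ℝ)‖ ≤ 1 := by
      intro c
      split_ifs
      · exact hσ.le
      · simp
    obtain ⟨T, hT, hTδ, hTn, -⟩ := hF.universal ℝ (fun c => if c = b then σ else 0)
      ⟨1, by rintro _ ⟨c, rfl⟩; exact hn c⟩
    have hT1 : ‖T‖ ≤ 1 := by
      rw [hTn]
      have : Nonempty B := ⟨b⟩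
      exact ciSup_le hn
    let U : P A →L[ℝ] ℝ := T.comp (Φ.toContinuousLinearEquiv : P A →L[ℝ] F)
    have hUap : ∀ x, U x = T (Φ x) := fun x => rfl
    have hU : IsLatticeHom U := ⟨fun x y => by
      rw [hUap, hΦ, hT.sup]; rfl, fun x y => by rw [hUap, hΦ', hT.inf]; rfl⟩
    obtain ⟨y, hy⟩ := exists_evl hU (by
      refine ContinuousLinearMap.opNorm_le_bound _ zero_le_one fun x => ?_
      rw [hUap, one_mul]
      have := T.le_of_opNorm_le hT1 (Φ x)
      rwa [one_mul, Φ.norm_map] at this)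
    exact ⟨T, y, hT, hTδ, fun x => by rw [← hUap, hy]⟩
  obtain ⟨T, y, hT, h1, hy⟩ := key 1 (by simp)
  obtain ⟨T', y', hT', h1', hy'⟩ := key (-1) (by simp)
  have h2 : y = y' := by
    funext a
    apply Subtype.ext
    exact le_antisymm (compare hF Φ hΦ hΦ' b (by simp) (by simp) hT hT' h1 h1' hy hy' a)
      (compare hF Φ hΦ hΦ' b (by simp) (by simp) hT' hT h1' h1 hy' hy a)
  have h3 := h1 b
  have h4 := h1' b
  rw [if_pos rfl, ← Φ.apply_symm_apply (δ b), hy] at h3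
  rw [if_pos rfl, ← Φ.apply_symm_apply (δ b), hy', ← h2, h3] at h4
  norm_num at h4

end

/-- There is a projective Banach lattice `P` without topological order unit which is not free:
`P` is not isometrically lattice isomorphic to any Banach lattice `F` which, with some
`δ : B → F`, `B` nonempty, has the universal property of the free Banach lattice over `B`. -/
theorem result : ∃ (P : Type) (_ : NormedAddCommGroup P) (_ : Lattice P) (_ : NormedSpace ℝ P),
    BanachLattice P ∧ Projective.{v} P ∧ (¬ ∃ e : P, IsTopologicalOrderUnit e) ∧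
      ∀ (B : Type w) (F : Type u) [NormedAddCommGroup F] [Lattice F] [NormedSpace ℝ F]
        [BanachLattice F] (δ : B → F), Nonempty B → IsFBL.{0} δ →
        ¬ ∃ Φ : P ≃ₗᵢ[ℝ] F, (∀ x y, Φ (x ⊔ y) = Φ x ⊔ Φ y) ∧ ∀ x y, Φ (x ⊓ y) = Φ x ⊓ Φ y := by
  refine ⟨P ℝ, inferInstance, inferInstance, inferInstance, inferInstance, projective ℝ, no_unit,
    ?_⟩
  rintro B F _ _ _ _ δ hB hF ⟨Φ, hΦ, hΦ'⟩
  exact not_free hF Φ hΦ hΦ'

end Pool.Agent.Results.MP_be51b2_an.PositiveGenerators
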